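import Pool.Agent.Helper13.TR.StC

/-!
# Project TR, module CYC: relative `H_1` of a plane is cyclic
-/

set_option autoImplicit false

namespace Pool.Agent.Helper25.TR

open Set Topology Pool.Agent.Helper13.TR

/-- `RAY` with a weaker compactness hypothesis -/
private lemma ray' (hRAY : StRAY) {W : Type} [TopologicalSpace W] [T2Space W] (hW : HM W) (D : Set W)
    (h : C(W, ℝ)) (hD : IsClosed D) (hi : InjOn h D)
    (hc : ∀ a b : ℝ, ∃ K : Set W, IsCompact K ∧ D ∩ h ⁻¹' Icc a b ⊆ K)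
    (hb : ∃ ε : ℝ, ∀ w ∈ D, ε ≤ h w) : PP D 2 := by
  refine hRAY W hW D h hD hi ?_ hb
  intro a b
  obtain ⟨K, hK, hDK⟩ := hc a b
  exact hK.of_isClosed_subset (hD.inter (isClosed_Icc.preimage h.continuous)) hDK

/-- the half planes -/
private lemma half (hRAY : StRAY) (hBIS : StBIS) (hP1L : StP1L) (hMON : StMON) {A : Type}
    [TopologicalSpace A] [T2Space A] (hW : HM (ℝ × ℝ × A)) (t : A) (J : Set ℝ) (hJ : IsClosed J)
    (s : ℝ) (hs : s ≠ 0) (hJs : ∀ x ∈ J, 0 ≤ s * x) :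
    PP ((univ : Set ℝ) ×ˢ (J ×ˢ ({t} : Set A))) 1 := by
  set B : Set (ℝ × ℝ × A) := (univ : Set ℝ) ×ˢ (J ×ˢ ({t} : Set A)) with hB
  have hBc : IsClosed B := isClosed_univ.prod (hJ.prod isClosed_singleton)
  let h1 : C(ℝ × ℝ × A, ℝ) := ⟨fun p => p.1, continuous_fst⟩
  let h2 : C(ℝ × ℝ × A, ℝ) := ⟨fun p => s * p.2.1, continuous_const.mul (continuous_fst.comp continuous_snd)⟩
  have hmem : ∀ (r : ℝ) (p : ℝ × ℝ × A), p ∈ B ∩ h1 ⁻¹' {r} → p.1 = r ∧ p.2.1 ∈ J ∧ p.2.2 = t := by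
    rintro r ⟨x, y, z⟩ ⟨hp, hq⟩
    rw [hB] at hp
    exact ⟨hq, hp.2.1, hp.2.2⟩
  have hcl : ∀ r : ℝ, IsClosed (B ∩ h1 ⁻¹' {r}) :=
    fun r => hBc.inter (isClosed_singleton.preimage h1.continuous)
  have hinj : ∀ r : ℝ, InjOn h2 (B ∩ h1 ⁻¹' {r}) := by
    intro r p hp q hq hpq
    obtain ⟨a1, a2, a3⟩ := hmem r p hp
    obtain ⟨b1, b2, b3⟩ := hmem r q hq
    have h3 : s * p.2.1 = s * q.2.1 := hpq
    have h4 : p.2.1 = q.2.1 := mul_left_cancel₀ hs h3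
    exact Prod.ext (a1.trans b1.symm) (Prod.ext h4 (a3.trans b3.symm))
  have h2' : ∀ r : ℝ, PP (B ∩ h1 ⁻¹' {r}) 2 := by
    intro r
    refine ray' hRAY hW _ h2 (hcl r) (hinj r) ?_ ⟨0, ?_⟩
    · intro a b
      refine ⟨({r} : Set ℝ) ×ˢ (Icc (min (a / s) (b / s)) (max (a / s) (b / s)) ×ˢ ({t} : Set A)),
        isCompact_singleton.prod (isCompact_Icc.prod isCompact_singleton), ?_⟩
      rintro p ⟨hp, hq⟩
      obtain ⟨a1, a2, a3⟩ := hmem r p hp
      have hq' : a ≤ s * p.2.1 ∧ s * p.2.1 ≤ b := hq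
      refine ⟨a1, ⟨?_, ?_⟩, a3⟩
      · rcases lt_or_gt_of_ne hs with h | h
        · refine (min_le_right _ _).trans ?_
          rw [div_le_iff_of_neg h]
          linarith [mul_comm s p.2.1]
        · refine (min_le_left _ _).trans ?_
          rw [div_le_iff₀ h]
          linarith [mul_comm s p.2.1]
      · rcases lt_or_gt_of_ne hs with h | h
        · refine le_trans ?_ (le_max_left _ _)
          rw [le_div_iff_of_neg h]
          linarith [mul_comm s p.2.1]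
        · refine le_trans ?_ (le_max_right _ _)
          rw [le_div_iff₀ h]
          linarith [mul_comm s p.2.1]
    · intro p hp
      exact hJs _ (hmem r p hp).2.1
  have hmono := (hMON (ℝ × ℝ × A)).2.2.2.2.1
  intro σ hσ
  refine hBIS _ B h1 1 σ hBc h2' ?_
  intro r
  have h3 : PP (B ∩ h1 ⁻¹' {r}) 1 := hP1L _ hW _ h2 (hcl r) (hinj r)
  exact h3 ((hmono _ _ 1 inter_subset_left).1 hσ)

/-- the half lines -/
private lemma ray1 (hRAY : StRAY) {A : Type} [TopologicalSpace A] [T2Space A] (hW : HM (ℝ × ℝ × A))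
    (t : A) (J : Set ℝ) (hJ : IsClosed J) (s : ℝ) (hs : s ≠ 0) (hJs : ∀ x ∈ J, 0 ≤ s * x) :
    PP (J ×ˢ (({0} : Set ℝ) ×ˢ ({t} : Set A))) 2 := by
  set D : Set (ℝ × ℝ × A) := J ×ˢ (({0} : Set ℝ) ×ˢ ({t} : Set A)) with hD
  have hDc : IsClosed D := hJ.prod (isClosed_singleton.prod isClosed_singleton)
  let h1 : C(ℝ × ℝ × A, ℝ) := ⟨fun p => s * p.1, continuous_const.mul continuous_fst⟩
  refine ray' hRAY hW D h1 hDc ?_ ?_ ⟨0, fun p hp => hJs _ hp.1⟩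
  · intro p hp q hq hpq
    have h3 : s * p.1 = s * q.1 := hpq
    have h4 : p.1 = q.1 := mul_left_cancel₀ hs h3
    have a2 : p.2.1 = 0 := hp.2.1
    have a3 : p.2.2 = t := hp.2.2
    have b2 : q.2.1 = 0 := hq.2.1
    have b3 : q.2.2 = t := hq.2.2
    exact Prod.ext h4 (Prod.ext (a2.trans b2.symm) (a3.trans b3.symm))
  · intro a b
    refine ⟨Icc (min (a / s) (b / s)) (max (a / s) (b / s)) ×ˢ (({0} : Set ℝ) ×ˢ ({t} : Set A)),
      isCompact_Icc.prod (isCompact_singleton.prod isCompact_singleton), ?_⟩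
    rintro p ⟨hp, hq⟩
    have hq' : a ≤ s * p.1 ∧ s * p.1 ≤ b := hq
    refine ⟨⟨?_, ?_⟩, hp.2⟩
    · rcases lt_or_gt_of_ne hs with h | h
      · refine (min_le_right _ _).trans ?_
        rw [div_le_iff_of_neg h]
        linarith [mul_comm s p.1]
      · refine (min_le_left _ _).trans ?_
        rw [div_le_iff₀ h]
        linarith [mul_comm s p.1]
    · rcases lt_or_gt_of_ne hs with h | h
      · refine le_trans ?_ (le_max_left _ _)
        rw [le_div_iff_of_neg h]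
        linarith [mul_comm s p.1]
      · refine le_trans ?_ (le_max_right _ _)
        rw [le_div_iff₀ h]
        linarith [mul_comm s p.1]

/-- CYC -/
theorem hCYC (hRAY : StRAY) (hBIS : StBIS) (hP1L : StP1L) (hMV : StMV) (hMON : StMON) : StCYC := by
  intro A _ _ hW t
  have hmono := (hMON (ℝ × ℝ × A)).2.2.2.2.1
  set Bp : Set (ℝ × ℝ × A) := (univ : Set ℝ) ×ˢ (Ici (0 : ℝ) ×ˢ ({t} : Set A)) with hBp
  set Bm : Set (ℝ × ℝ × A) := (univ : Set ℝ) ×ˢ (Iic (0 : ℝ) ×ˢ ({t} : Set A)) with hBm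
  set lp : Set (ℝ × ℝ × A) := Ici (0 : ℝ) ×ˢ (({0} : Set ℝ) ×ˢ ({t} : Set A)) with hlp
  set lm : Set (ℝ × ℝ × A) := Iic (0 : ℝ) ×ˢ (({0} : Set ℝ) ×ˢ ({t} : Set A)) with hlm
  have hB : {p : ℝ × ℝ × A | p.2.2 = t} = Bp ∪ Bm := by
    ext ⟨x, y, z⟩
    simp only [hBp, hBm, mem_ofPred_eq, mem_union, mem_prod, mem_univ, true_and, mem_Ici, mem_Iic,
      mem_singleton_iff]
    constructor
    · intro h
      rcases le_total 0 y with h1 | h1
      · exact Or.inl ⟨h1, h⟩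
      · exact Or.inr ⟨h1, h⟩
    · rintro (⟨_, h⟩ | ⟨_, h⟩)
      · exact h
      · exact h
  have hl : Bp ∩ Bm = lp ∪ lm := by
    ext ⟨x, y, z⟩
    simp only [hBp, hBm, hlp, hlm, mem_inter_iff, mem_union, mem_prod, mem_univ, true_and, mem_Ici,
      mem_Iic, mem_singleton_iff]
    constructor
    · rintro ⟨⟨h1, h2⟩, h3, _⟩
      rcases le_total 0 x with h4 | h4
      · exact Or.inl ⟨h4, le_antisymm h3 h1, h2⟩
      · exact Or.inr ⟨h4, le_antisymm h3 h1, h2⟩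
    · rintro (⟨_, h1, h2⟩ | ⟨_, h1, h2⟩)
      · exact ⟨⟨h1.ge, h2⟩, h1.le, h2⟩
      · exact ⟨⟨h1.ge, h2⟩, h1.le, h2⟩
  have hp : lp ∩ lm = {((0 : ℝ), (0 : ℝ), t)} := by
    ext ⟨x, y, z⟩
    simp only [hlp, hlm, mem_inter_iff, mem_prod, mem_Ici, mem_Iic, mem_singleton_iff,
      Prod.mk.injEq]
    constructor
    · rintro ⟨⟨h1, h2, h3⟩, h4, _⟩
      exact ⟨le_antisymm h4 h1, h2, h3⟩
    · rintro ⟨h1, h2, h3⟩
      exact ⟨⟨h1.ge, h2, h3⟩, h1.le, h2, h3⟩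
  have cBp : IsClosed Bp := isClosed_univ.prod (isClosed_Ici.prod isClosed_singleton)
  have cBm : IsClosed Bm := isClosed_univ.prod (isClosed_Iic.prod isClosed_singleton)
  have clp : IsClosed lp := isClosed_Ici.prod (isClosed_singleton.prod isClosed_singleton)
  have clm : IsClosed lm := isClosed_Iic.prod (isClosed_singleton.prod isClosed_singleton)
  have pBp : PP Bp 1 := half hRAY hBIS hP1L hMON hW t (Ici 0) isClosed_Ici 1 one_ne_zero
    (fun x hx => by rw [one_mul]; exact hx)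
  have pBm : PP Bm 1 := half hRAY hBIS hP1L hMON hW t (Iic 0) isClosed_Iic (-1) (by norm_num)
    (fun x hx => by
      have : x ≤ 0 := hx
      linarith)
  have plp : PP lp 2 := ray1 hRAY hW t (Ici 0) isClosed_Ici 1 one_ne_zero
    (fun x hx => by rw [one_mul]; exact hx)
  have plm : PP lm 2 := ray1 hRAY hW t (Iic 0) isClosed_Iic (-1) (by norm_num)
    (fun x hx => by
      have : x ≤ 0 := hx
      linarith)
  obtain ⟨m1, m2, m3, m4, -⟩ := hMV (ℝ × ℝ × A) lp lm clp clm 2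
  obtain ⟨n1, n2, n3, n4, -⟩ := hMV (ℝ × ℝ × A) Bp Bm cBp cBm 1
  rw [hp] at m1 m2 m3
  rw [hl] at n1 n2 n3
  rw [← hB] at n1 n2
  obtain ⟨N, -, hpN, c, hc, hgen⟩ := hW.ori ((0 : ℝ), (0 : ℝ), t)
  have hg : c ∈ Cyc {((0 : ℝ), (0 : ℝ), t)} 3 := (hmono _ _ 3 (singleton_subset_iff.2 hpN)).1 hc
  obtain ⟨hG, -⟩ := hgen _ hpN
  obtain ⟨g', θ, hgg, hθ, hgθ⟩ := m2 c hg
  obtain ⟨θ', ε, hθθ, hε, hθε⟩ := n2 θ hθ
  refine ⟨ε, hε, ?_⟩
  intro e he
  have hBs : Bp ⊆ {p : ℝ × ℝ × A | p.2.2 = t} := by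
    rw [hB]
    exact subset_union_left
  have hBs' : Bm ⊆ {p : ℝ × ℝ × A | p.2.2 = t} := by
    rw [hB]
    exact subset_union_right
  obtain ⟨τ, hτ, hτe⟩ := n3 e (pBp ((hmono _ _ 1 hBs).1 he)) (pBm ((hmono _ _ 1 hBs').1 he))
  obtain ⟨κ, hκ, hκτ⟩ := m3 τ (plp ((hmono _ _ 2 subset_union_left).1 hτ))
    (plm ((hmono _ _ 2 subset_union_right).1 hτ))
  obtain ⟨m, hm⟩ := hG κ hκ
  refine ⟨m, ?_⟩
  have h1 : κ - m • g' ∈ Nul {((0 : ℝ), (0 : ℝ), t)} 3 := by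
    have h2 := Submodule.add_mem _ hm (Submodule.smul_mem _ m hgg)
    have e1 : κ - m • c + m • (c - g') = κ - m • g' := by
      rw [smul_sub]
      abel
    rw [e1] at h2
    exact h2
  have h2 := m1 _ _ (m4 m κ τ g' θ hκτ hgθ) h1
  have h3 : τ - m • θ' ∈ Nul (lp ∪ lm) 2 := by
    have h4 := Submodule.add_mem _ h2 (Submodule.smul_mem _ m hθθ)
    have e1 : τ - m • θ + m • (θ - θ') = τ - m • θ' := by
      rw [smul_sub]
      abel
    rw [e1] at h4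
    exact h4
  exact n1 _ _ (n4 m τ e θ' ε hτe hθε) h3

end Pool.Agent.Helper25.TR
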